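import Mathlib

/-!
# Positivity of polynomials on boxes, by kernel computation

`NP n` is the type of dense integer polynomials in `n` variables (nested lists, the outermost
list is the first variable). `eval n p [x₀, ..., x_{n-1}]` is the value. The checker `chk T n p`
subdivides the unit box along the tree `T` and tests the (unscaled) tensor Bernstein
coefficients at the leaves; `chk_sound` : the polynomial is nonnegative on the unit box.
-/

set_option autoImplicit false

namespace Pool.Agent.Lib.MP_eb7570_an.Pos

/-- dense integer polynomials in `n` variables -/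
@[reducible] def NP : ℕ → Type
  | 0 => ℤ
  | n + 1 => List (NP n)

/-- addition of lists, coefficientwise -/
def addL {α : Type} (f : α → α → α) : List α → List α → List α
  | [], q => q
  | a :: p, [] => a :: p
  | a :: p, b :: q => f a b :: addL f p q

def add : (n : ℕ) → NP n → NP n → NP n
  | 0 => Int.add
  | n + 1 => addL (add n)

def smul (c : ℤ) : (n : ℕ) → NP n → NP n
  | 0 => Int.mul c
  | n + 1 => List.map (smul c n)

/-- Horner evaluation -/
noncomputable def evalL {α : Type} (f : α → ℝ) (x : ℝ) : List α → ℝ
  | [] => 0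
  | a :: p => f a + x * evalL f x p

/-- evaluation -/
noncomputable def eval : (n : ℕ) → NP n → List ℝ → ℝ
  | 0, c, _ => ((c : ℤ) : ℝ)
  | n + 1, p, xs => evalL (fun c => eval n c xs.tail) (xs.headD 0) p

lemma evalL_addL {α : Type} (g : α → α → α) (f : α → ℝ) (x : ℝ)
    (hg : ∀ a b, f (g a b) = f a + f b) (p q : List α) :
    evalL f x (addL g p q) = evalL f x p + evalL f x q := by
  induction p generalizing q with
  | nil => simp [addL, evalL]
  | cons a p ih =>
    cases q with
    | nil => simp [addL, evalL]
    | cons b q =>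
      simp only [addL, evalL, hg, ih]
      ring

lemma eval_add (n : ℕ) (p q : NP n) (xs : List ℝ) :
    eval n (add n p q) xs = eval n p xs + eval n q xs := by
  induction n generalizing xs with
  | zero =>
    change (((p : ℤ) + (q : ℤ) : ℤ) : ℝ) = ((p : ℤ) : ℝ) + ((q : ℤ) : ℝ)
    exact Int.cast_add _ _
  | succ n ih =>
    exact evalL_addL _ _ _ (fun a b => ih a b _) p q

lemma evalL_map {α β : Type} (g : α → β) (f : β → ℝ) (x : ℝ) (p : List α) :
    evalL f x (p.map g) = evalL (fun a => f (g a)) x p := by
  induction p with
  | nil => rfl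
  | cons a p ih => simp only [List.map_cons, evalL, ih]

lemma evalL_congr {α : Type} {f g : α → ℝ} {x : ℝ} {p : List α} (h : ∀ a ∈ p, f a = g a) :
    evalL f x p = evalL g x p := by
  induction p with
  | nil => rfl
  | cons a p ih =>
    simp only [evalL]
    rw [h a (by simp), ih (fun b hb => h b (by simp [hb]))]

lemma evalL_const_mul {α : Type} (c : ℝ) (f : α → ℝ) (x : ℝ) (p : List α) :
    evalL (fun a => c * f a) x p = c * evalL f x p := by
  induction p with
  | nil => simp [evalL]
  | cons a p ih =>
    simp only [evalL, ih]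
    ring

lemma eval_smul (c : ℤ) (n : ℕ) (p : NP n) (xs : List ℝ) :
    eval n (smul c n p) xs = c * eval n p xs := by
  induction n generalizing xs with
  | zero =>
    change ((c * (p : ℤ) : ℤ) : ℝ) = (c : ℝ) * ((p : ℤ) : ℝ)
    exact Int.cast_mul _ _
  | succ n ih =>
    change evalL _ _ (List.map (smul c n) p) = _
    rw [evalL_map]
    simp only [ih]
    exact evalL_const_mul _ _ _ _

/-! ### substitution `x + 1` -/

def shL {α : Type} (g : α → α → α) : List α → List α
  | [] => []
  | c :: cs => addL g (shL g cs) (c :: shL g cs)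

lemma evalL_shL {α : Type} (g : α → α → α) (f : α → ℝ) (x : ℝ)
    (hg : ∀ a b, f (g a b) = f a + f b) (p : List α) :
    evalL f x (shL g p) = evalL f (x + 1) p := by
  induction p with
  | nil => rfl
  | cons a p ih =>
    simp only [shL, evalL_addL g f x hg, evalL, ih]
    ring

/-- substitute `x_k + 1` for `x_k` -/
def shK : (n k : ℕ) → NP n → NP n
  | 0, _ => fun c => c
  | n + 1, 0 => shL (add n)
  | n + 1, k + 1 => List.map (shK n k)

/-- change the `k`-th entry of a list -/
def modi (g : ℝ → ℝ) : ℕ → List ℝ → List ℝ
  | 0, xs => g (xs.headD 0) :: xs.tail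
  | k + 1, xs => xs.headD 0 :: modi g k xs.tail

lemma eval_shK (n k : ℕ) (p : NP n) (xs : List ℝ) :
    eval n (shK n k p) xs = eval n p (modi (fun x => x + 1) k xs) := by
  induction n generalizing k xs with
  | zero => rfl
  | succ n ih =>
    cases k with
    | zero => exact evalL_shL _ _ _ (fun a b => eval_add n a b _) p
    | succ k =>
      change evalL _ _ (List.map (shK n k) p) = _
      rw [evalL_map]
      simp only [ih]
      rfl

/-! ### substitution `x / 2` -/

def hfL {α : Type} (m : ℤ → α → α) : ℕ → List α → List α
  | _, [] => []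
  | d, c :: cs => m (Int.ofNat (Nat.pow 2 d)) c :: hfL m (d - 1) cs

lemma evalL_hfL {α : Type} (m : ℤ → α → α) (f : α → ℝ) (x : ℝ)
    (hm : ∀ c a, f (m c a) = c * f a) (p : List α) (d : ℕ) (hd : p.length ≤ d + 1) :
    evalL f x (hfL m d p) = 2 ^ d * evalL f (x / 2) p := by
  induction p generalizing d with
  | nil => simp [hfL, evalL]
  | cons a p ih =>
    simp only [hfL, evalL, hm]
    have h2 : ((Int.ofNat (Nat.pow 2 d) : ℤ) : ℝ) = 2 ^ d := by
      have : Int.ofNat (Nat.pow 2 d) = ((2 ^ d : ℕ) : ℤ) := rfl
      rw [this]
      push_cast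
      rfl
    rw [h2]
    cases p with
    | nil => simp [hfL, evalL]
    | cons b p =>
      cases d with
      | zero => simp at hd
      | succ d =>
        rw [ih (d + 1 - 1) (by simpa using hd)]
        simp only [Nat.add_sub_cancel]
        ring

/-- substitute `x_k / 2` for `x_k` and multiply by `2 ^ d` -/
def hfK (d : ℕ) : (n k : ℕ) → NP n → NP n
  | 0, _ => fun c => c
  | n + 1, 0 => hfL (fun c => smul c n) d
  | n + 1, k + 1 => List.map (hfK d n k)

/-- all lists at level `k` have at most `m` entries -/
def fit (m : ℕ) : (n k : ℕ) → NP n → Bool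
  | 0, _ => fun _ => false
  | _ + 1, 0 => fun p => Nat.ble p.length m
  | n + 1, k + 1 => fun p => p.all (fit m n k)

lemma eval_hfK (d n k : ℕ) (p : NP n) (xs : List ℝ) (h : fit (d + 1) n k p = true) :
    eval n (hfK d n k p) xs = 2 ^ d * eval n p (modi (fun x => x / 2) k xs) := by
  induction n generalizing k xs with
  | zero => exact absurd h (by simp [fit])
  | succ n ih =>
    cases k with
    | zero =>
      exact evalL_hfL _ _ _ (fun c a => eval_smul c n a _) p d (Nat.le_of_ble_eq_true h)
    | succ k =>
      change evalL _ _ (List.map (hfK d n k) p) = _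
      rw [evalL_map]
      have h' : ∀ a ∈ p, fit (d + 1) n k a = true := by
        have h1 : p.all (fit (d + 1) n k) = true := h
        exact List.all_eq_true.1 h1
      rw [evalL_congr (fun a ha => ih k a _ (h' a ha)), evalL_const_mul]
      rfl

/-! ### Bernstein coefficients -/

def bgo {α : Type} (g : α → α → α) : α → List α → α → List α
  | a, [], c => [g a c]
  | a, b :: bs, c => g a b :: bgo g b bs c

def bstep {α : Type} (g : α → α → α) : List α → α → List α
  | [], c => [c]
  | a :: as, c => a :: bgo g a as c

def toB {α : Type} (g : α → α → α) : List α → List α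
  | [] => []
  | c :: cs => cs.foldl (bstep g) [c]

/-- value of the (unscaled) Bernstein form -/
noncomputable def evalB {α : Type} (f : α → ℝ) (y : ℝ) : List α → ℝ
  | [] => 0
  | b :: bs => f b * (1 - y) ^ bs.length + y * evalB f y bs

lemma length_bgo {α : Type} (g : α → α → α) (a : α) (as : List α) (c : α) :
    (bgo g a as c).length = as.length + 1 := by
  induction as generalizing a with
  | nil => rfl
  | cons b bs ih => simp only [bgo, List.length_cons, ih]

lemma evalB_bgo {α : Type} (g : α → α → α) (f : α → ℝ) (y : ℝ)
    (hg : ∀ a b, f (g a b) = f a + f b) (a : α) (as : List α) (c : α) :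
    evalB f y (bgo g a as c) = f a * (1 - y) ^ as.length + evalB f y as + f c * y ^ as.length := by
  induction as generalizing a with
  | nil => simp [bgo, evalB, hg]
  | cons b bs ih =>
    simp only [bgo, evalB, hg, ih, length_bgo, List.length_cons]
    ring

lemma evalB_bstep {α : Type} (g : α → α → α) (f : α → ℝ) (y : ℝ)
    (hg : ∀ a b, f (g a b) = f a + f b) (as : List α) (c : α) :
    evalB f y (bstep g as c) = evalB f y as + f c * y ^ as.length := by
  cases as with
  | nil => simp [bstep, evalB]
  | cons a as =>
    simp only [bstep, evalB, evalB_bgo g f y hg, length_bgo, List.length_cons]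
    ring

lemma length_bstep {α : Type} (g : α → α → α) (as : List α) (c : α) :
    (bstep g as c).length = as.length + 1 := by
  cases as with
  | nil => rfl
  | cons a as => simp only [bstep, List.length_cons, length_bgo]

lemma evalB_foldl {α : Type} (g : α → α → α) (f : α → ℝ) (y : ℝ)
    (hg : ∀ a b, f (g a b) = f a + f b) (cs : List α) (as : List α) :
    evalB f y (cs.foldl (bstep g) as) = evalB f y as + y ^ as.length * evalL f y cs := by
  induction cs generalizing as with
  | nil => simp [evalL]
  | cons c cs ih =>
    simp only [List.foldl_cons, ih, evalB_bstep g f y hg, length_bstep, evalL]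
    ring

lemma evalB_toB {α : Type} (g : α → α → α) (f : α → ℝ) (y : ℝ)
    (hg : ∀ a b, f (g a b) = f a + f b) (p : List α) :
    evalB f y (toB g p) = evalL f y p := by
  cases p with
  | nil => rfl
  | cons c cs =>
    simp only [toB, evalB_foldl g f y hg, evalB, evalL, List.length_nil, List.length_cons]
    ring

lemma evalB_nonneg {α : Type} (f : α → ℝ) (y : ℝ) (h0 : 0 ≤ y) (h1 : y ≤ 1) (p : List α)
    (hp : ∀ a ∈ p, 0 ≤ f a) : 0 ≤ evalB f y p := by
  induction p with
  | nil => exact le_refl _
  | cons a p ih =>
    simp only [evalB]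
    have h2 : 0 ≤ 1 - y := by linarith
    have h3 := hp a (by simp)
    have h4 := ih (fun b hb => hp b (by simp [hb]))
    positivity

/-- nonnegative integer -/
def isNN : ℤ → Bool
  | Int.ofNat _ => true
  | Int.negSucc _ => false

lemma isNN_sound (z : ℤ) (h : isNN z = true) : (0 : ℝ) ≤ (z : ℝ) := by
  cases z with
  | ofNat n =>
    have : (0 : ℤ) ≤ Int.ofNat n := Int.natCast_nonneg n
    exact_mod_cast this
  | negSucc n => exact absurd h (by simp [isNN])

/-- all Bernstein coefficients are nonnegative -/
def leaf : (n : ℕ) → NP n → Bool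
  | 0 => isNN
  | n + 1 => fun p => (toB (add n) p).all (leaf n)

/-- all entries are in the unit interval -/
def inBox (xs : List ℝ) : Prop := ∀ x ∈ xs, 0 ≤ x ∧ x ≤ 1

lemma inBox.tail {xs : List ℝ} (h : inBox xs) : inBox xs.tail :=
  fun x hx => h x (List.mem_of_mem_tail hx)

lemma inBox.head {xs : List ℝ} (h : inBox xs) : 0 ≤ xs.headD 0 ∧ xs.headD 0 ≤ 1 := by
  cases xs with
  | nil => simp
  | cons x xs => exact h x (by simp)

lemma leaf_sound (n : ℕ) (p : NP n) (h : leaf n p = true) (xs : List ℝ) (hx : inBox xs) :
    0 ≤ eval n p xs := by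
  induction n generalizing xs with
  | zero => exact isNN_sound _ h
  | succ n ih =>
    have h1 : (toB (add n) p).all (leaf n) = true := h
    rw [List.all_eq_true] at h1
    change 0 ≤ evalL _ _ p
    rw [← evalB_toB (add n) _ _ (fun a b => eval_add n a b _)]
    exact evalB_nonneg _ _ hx.head.1 hx.head.2 _ (fun a ha => ih a (h1 a ha) _ hx.tail)

/-- subdivision tree -/
inductive Tree
  | L : Tree
  | S (k d : ℕ) (l r : Tree) : Tree

/-- the checker -/
def chk (n : ℕ) : Tree → NP n → Bool
  | Tree.L, p => leaf n p
  | Tree.S k d l r, p =>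
    (fit (d + 1) n k p && chk n l (hfK d n k p)) && chk n r (shK n k (hfK d n k p))

lemma modi_modi (g h : ℝ → ℝ) (k : ℕ) (xs : List ℝ) :
    modi g k (modi h k xs) = modi (fun x => g (h x)) k xs := by
  induction k generalizing xs with
  | zero => rfl
  | succ k ih =>
    simp only [modi, List.headD_cons, List.tail_cons, ih]

/-- the `k`-th entry -/
noncomputable def nthD : ℕ → List ℝ → ℝ
  | 0, xs => xs.headD 0
  | k + 1, xs => nthD k xs.tail

lemma modi_inBox (g : ℝ → ℝ) (k : ℕ) (xs : List ℝ) (h : inBox xs)
    (hg : 0 ≤ g (nthD k xs) ∧ g (nthD k xs) ≤ 1) : inBox (modi g k xs) := by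
  induction k generalizing xs with
  | zero =>
    intro x hx
    simp only [modi, List.mem_cons] at hx
    rcases hx with rfl | hx
    · exact hg
    · exact h.tail x hx
  | succ k ih =>
    intro x hx
    simp only [modi, List.mem_cons] at hx
    rcases hx with rfl | hx
    · exact h.head
    · exact ih xs.tail h.tail hg x hx

lemma nthD_inBox (k : ℕ) (xs : List ℝ) (h : inBox xs) : 0 ≤ nthD k xs ∧ nthD k xs ≤ 1 := by
  induction k generalizing xs with
  | zero => exact h.head
  | succ k ih => exact ih xs.tail h.tail

lemma eval_modi_congr (n k : ℕ) (p : NP n) (xs : List ℝ) (g : ℝ → ℝ)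
    (hg : g (nthD k xs) = nthD k xs) : eval n p (modi g k xs) = eval n p xs := by
  induction n generalizing k xs with
  | zero => rfl
  | succ n ih =>
    cases k with
    | zero =>
      change evalL (fun c => eval n c xs.tail) (g (xs.headD 0)) p =
        evalL (fun c => eval n c xs.tail) (xs.headD 0) p
      rw [show g (xs.headD 0) = xs.headD 0 from hg]
    | succ k =>
      change evalL (fun c => eval n c (modi g k xs.tail)) (xs.headD 0) p =
        evalL (fun c => eval n c xs.tail) (xs.headD 0) p
      exact evalL_congr (fun a _ => ih k a xs.tail hg)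

/-- **Soundness of the checker**: `chk n T p` implies `0 ≤ p` on the unit box. -/
theorem chk_sound (n : ℕ) (T : Tree) (p : NP n) (h : chk n T p = true) (xs : List ℝ)
    (hx : inBox xs) : 0 ≤ eval n p xs := by
  induction T generalizing p xs with
  | L => exact leaf_sound n p h xs hx
  | S k d l r ihl ihr =>
    simp only [chk, Bool.and_eq_true] at h
    obtain ⟨⟨hf, hl⟩, hr⟩ := h
    have hk := nthD_inBox k xs hx
    rcases le_total (nthD k xs) (1 / 2) with hle | hge
    · have h1 := ihl _ hl (modi (fun x => 2 * x) k xs)
        (modi_inBox _ _ _ hx (by constructor <;> linarith [hk.1]))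
      rw [eval_hfK d n k p _ hf, modi_modi, eval_modi_congr] at h1
      · have h2 : (0 : ℝ) < 2 ^ d := by positivity
        exact nonneg_of_mul_nonneg_right h1 h2
      · ring
    · have h1 := ihr _ hr (modi (fun x => 2 * x - 1) k xs)
        (modi_inBox _ _ _ hx (by constructor <;> linarith [hk.2]))
      rw [eval_shK, eval_hfK d n k p _ hf, modi_modi, modi_modi, eval_modi_congr] at h1
      · have h2 : (0 : ℝ) < 2 ^ d := by positivity
        exact nonneg_of_mul_nonneg_right h1 h2
      · ring

end Pool.Agent.Lib.MP_eb7570_an.Pos
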