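import Mathlib
import Pool.Agent.Lib.MP_eb7570_an.Pos.Core

/-!
# Kernel polynomial algebra

Products, derivatives and substitutions of the nested integer lists `NP n`, with the evaluation
lemmas.
-/

set_option autoImplicit false

namespace Pool.Agent.Lib.MP_eb7570_an.Pos

def zero : (n : ℕ) → NP n
  | 0 => Int.ofNat 0
  | _ + 1 => []

@[simp] lemma eval_zero (n : ℕ) (xs : List ℝ) : eval n (zero n) xs = 0 := by
  cases n with
  | zero =>
    change (((Int.ofNat 0 : ℤ)) : ℝ) = 0
    simp
  | succ n => rfl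

def mulL {α : Type} (g : α → α → α) (m : α → α → α) (z : α) : List α → List α → List α
  | [], _ => []
  | a :: p, q => addL g (q.map (m a)) (z :: mulL g m z p q)

/-- product -/
def mul : (n : ℕ) → NP n → NP n → NP n
  | 0 => Int.mul
  | n + 1 => mulL (add n) (mul n) (zero n)

lemma evalL_mulL {α : Type} (g m : α → α → α) (z : α) (f : α → ℝ) (x : ℝ)
    (hg : ∀ a b, f (g a b) = f a + f b) (hm : ∀ a b, f (m a b) = f a * f b) (hz : f z = 0)
    (p q : List α) : evalL f x (mulL g m z p q) = evalL f x p * evalL f x q := by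
  induction p with
  | nil => simp [mulL, evalL]
  | cons a p ih =>
    simp only [mulL, evalL_addL g f x hg, evalL_map, evalL, ih, hm, hz, evalL_const_mul]
    ring

@[simp] lemma eval_mul (n : ℕ) (p q : NP n) (xs : List ℝ) :
    eval n (mul n p q) xs = eval n p xs * eval n q xs := by
  induction n generalizing xs with
  | zero =>
    change (((p : ℤ) * (q : ℤ) : ℤ) : ℝ) = ((p : ℤ) : ℝ) * ((q : ℤ) : ℝ)
    exact Int.cast_mul _ _
  | succ n ih =>
    exact evalL_mulL _ _ _ _ _ (fun a b => eval_add n a b _) (fun a b => ih a b _)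
      (eval_zero n _) p q

attribute [simp] eval_add eval_smul

/-- difference -/
def sub (n : ℕ) (p q : NP n) : NP n := add n p (smul (Int.negSucc 0) n q)

@[simp] lemma eval_sub (n : ℕ) (p q : NP n) (xs : List ℝ) :
    eval n (sub n p q) xs = eval n p xs - eval n q xs := by
  simp only [sub, eval_add, eval_smul]
  have : ((Int.negSucc 0 : ℤ) : ℝ) = -1 := by simp
  rw [this]
  ring

/-- constants -/
def const (c : ℤ) : (n : ℕ) → NP n
  | 0 => c
  | n + 1 => [const c n]

@[simp] lemma eval_const (c : ℤ) (n : ℕ) (xs : List ℝ) : eval n (const c n) xs = c := by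
  induction n generalizing xs with
  | zero => rfl
  | succ n ih =>
    change evalL _ _ [const c n] = _
    simp only [evalL, ih]
    ring

/-- the variable `x_k` -/
def var : (n k : ℕ) → NP n
  | 0, _ => Int.ofNat 0
  | n + 1, 0 => [zero n, const 1 n]
  | n + 1, k + 1 => [var n k]

lemma eval_var (n k : ℕ) (hk : k < n) (xs : List ℝ) : eval n (var n k) xs = nthD k xs := by
  induction n generalizing k xs with
  | zero => omega
  | succ n ih =>
    cases k with
    | zero =>
      change evalL _ _ [zero n, const 1 n] = _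
      simp only [evalL, eval_zero, eval_const, nthD]
      push_cast
      ring
    | succ k =>
      change evalL _ _ [var n k] = _
      simp only [evalL, ih k (by omega), nthD]
      ring

/-! ### derivatives -/

def derL {α : Type} (g : α → α → α) (z : α) : List α → List α
  | [] => []
  | _ :: cs => addL g cs (z :: derL g z cs)

lemma hasDerivAt_evalL {α : Type} (g : α → α → α) (z : α) (f : α → ℝ) (x : ℝ)
    (hg : ∀ a b, f (g a b) = f a + f b) (hz : f z = 0) (p : List α) :
    HasDerivAt (fun x => evalL f x p) (evalL f x (derL g z p)) x := by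
  induction p with
  | nil => simpa [evalL, derL] using hasDerivAt_const x (0 : ℝ)
  | cons c cs ih =>
    simp only [derL, evalL_addL g f x hg, evalL, hz]
    have h := ((hasDerivAt_id x).mul ih).const_add (f c)
    simp only [id, one_mul] at h
    have e : evalL f x cs + (0 + x * evalL f x (derL g z cs)) =
        evalL f x cs + x * evalL f x (derL g z cs) := by ring
    rw [e]
    exact h

/-- derivative with respect to `x_k` -/
def der : (n k : ℕ) → NP n → NP n
  | 0, _ => fun _ => Int.ofNat 0
  | n + 1, 0 => derL (add n) (zero n)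
  | n + 1, k + 1 => List.map (der n k)

/-! ### substitution -/

def subL {α β : Type} (h : α → β) (g m : β → β → β) (z x : β) : List α → β
  | [] => z
  | c :: cs => g (h c) (m x (subL h g m z x cs))

/-- substitute the polynomials `qs` (in `m` variables) for the variables -/
def subst (m : ℕ) : (n : ℕ) → NP n → List (NP m) → NP m
  | 0, c, _ => const c m
  | n + 1, p, qs => subL (fun c => subst m n c qs.tail) (add m) (mul m) (zero m)
      (qs.headD (zero m)) p

lemma eval_subst (m n : ℕ) (p : NP n) (qs : List (NP m)) (xs : List ℝ) :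
    eval m (subst m n p qs) xs = eval n p (qs.map (fun q => eval m q xs)) := by
  induction n generalizing qs with
  | zero => exact eval_const _ _ _
  | succ n ih =>
    have hh : ((qs.map (fun q => eval m q xs)).headD 0) = eval m (qs.headD (zero m)) xs := by
      cases qs with
      | nil => simp
      | cons q qs => rfl
    have ht : (qs.map (fun q => eval m q xs)).tail = qs.tail.map (fun q => eval m q xs) := by
      cases qs <;> rfl
    change eval m (subL _ _ _ _ _ (p : List (NP n))) xs = evalL (fun c => eval n c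
      (qs.map (fun q => eval m q xs)).tail) ((qs.map (fun q => eval m q xs)).headD 0) p
    rw [hh, ht]
    induction (p : List (NP n)) with
    | nil => simp [subL, evalL]
    | cons c cs ihc =>
      simp only [subL, evalL, eval_add, eval_mul, ihc, ih]

/-! ### two variables -/

/-- value of a polynomial in two variables -/
noncomputable def ev (p : NP 2) (u v : ℝ) : ℝ := eval 2 p [u, v]

/-- value of a polynomial in one variable -/
noncomputable def ev1 (p : NP 1) (u : ℝ) : ℝ := eval 1 p [u]

@[simp] lemma ev_add (p q : NP 2) (u v : ℝ) : ev (add 2 p q) u v = ev p u v + ev q u v :=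
  eval_add _ _ _ _
@[simp] lemma ev_sub (p q : NP 2) (u v : ℝ) : ev (sub 2 p q) u v = ev p u v - ev q u v :=
  eval_sub _ _ _ _
@[simp] lemma ev_mul (p q : NP 2) (u v : ℝ) : ev (mul 2 p q) u v = ev p u v * ev q u v :=
  eval_mul _ _ _ _
@[simp] lemma ev_smul (c : ℤ) (p : NP 2) (u v : ℝ) : ev (smul c 2 p) u v = c * ev p u v :=
  eval_smul _ _ _ _
@[simp] lemma ev_const (c : ℤ) (u v : ℝ) : ev (const c 2) u v = c := eval_const _ _ _
@[simp] lemma ev_var0 (u v : ℝ) : ev (var 2 0) u v = u := eval_var 2 0 (by norm_num) _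
@[simp] lemma ev_var1 (u v : ℝ) : ev (var 2 1) u v = v := eval_var 2 1 (by norm_num) _

@[simp] lemma ev1_add (p q : NP 1) (u : ℝ) : ev1 (add 1 p q) u = ev1 p u + ev1 q u :=
  eval_add _ _ _ _
@[simp] lemma ev1_sub (p q : NP 1) (u : ℝ) : ev1 (sub 1 p q) u = ev1 p u - ev1 q u :=
  eval_sub _ _ _ _
@[simp] lemma ev1_mul (p q : NP 1) (u : ℝ) : ev1 (mul 1 p q) u = ev1 p u * ev1 q u :=
  eval_mul _ _ _ _
@[simp] lemma ev1_smul (c : ℤ) (p : NP 1) (u : ℝ) : ev1 (smul c 1 p) u = c * ev1 p u :=
  eval_smul _ _ _ _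
@[simp] lemma ev1_const (c : ℤ) (u : ℝ) : ev1 (const c 1) u = c := eval_const _ _ _
@[simp] lemma ev1_var (u : ℝ) : ev1 (var 1 0) u = u := eval_var 1 0 (by norm_num) _

lemma ev_subst (p a b : NP 2) (u v : ℝ) :
    ev (subst 2 2 p [a, b]) u v = ev p (ev a u v) (ev b u v) :=
  eval_subst _ _ _ _ _

lemma ev1_subst (p : NP 2) (a b : NP 1) (u : ℝ) :
    ev1 (subst 1 2 p [a, b]) u = ev p (ev1 a u) (ev1 b u) :=
  eval_subst _ _ _ _ _

lemma ev_eq (p : NP 2) (u v : ℝ) : ev p u v = evalL (fun c => ev1 c v) u (p : List (NP 1)) := rfl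

lemma ev1_eq (p : NP 1) (u : ℝ) : ev1 p u = evalL (fun c : ℤ => (c : ℝ)) u (p : List ℤ) := rfl

lemma hasDerivAt_ev1 (p : NP 1) (u : ℝ) : HasDerivAt (ev1 p) (ev1 (der 1 0 p) u) u :=
  hasDerivAt_evalL (add 0) (zero 0) (fun c => eval 0 c []) u (fun a b => eval_add 0 a b _)
    (eval_zero 0 _) p

section fderiv

variable {E : Type*} [NormedAddCommGroup E] [NormedSpace ℝ E]

lemma hasFDerivAt_evalL {α : Type} (D0 : List α → List α) (D1 : α → α)
    (f : α → ℝ → ℝ) (hD : D0 [] = [])
    (hD0 : ∀ (c : α) (cs : List α) (x y : ℝ), evalL (fun a => f a y) x (D0 (c :: cs)) =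
      evalL (fun a => f a y) x cs + x * evalL (fun a => f a y) x (D0 cs))
    (g1 g2 : E → ℝ) (g1' g2' : E →L[ℝ] ℝ) (x : E)
    (h1 : HasFDerivAt g1 g1' x)
    (hf : ∀ a, HasFDerivAt (fun z => f a (g2 z)) (f (D1 a) (g2 x) • g2') x)
    (p : List α) :
    HasFDerivAt (fun z => evalL (fun a => f a (g2 z)) (g1 z) p)
      ((evalL (fun a => f a (g2 x)) (g1 x) (D0 p)) • g1' +
        (evalL (fun a => f a (g2 x)) (g1 x) (p.map D1)) • g2') x := by
  induction p with
  | nil => simpa [evalL, hD] using hasFDerivAt_const (0 : ℝ) x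
  | cons c cs ih =>
    have h := (hf c).add (h1.mul ih)
    refine h.congr_fderiv ?_
    ext w
    simp only [hD0, List.map_cons, evalL, smul_eq_mul, add_apply,
      smul_apply]
    ring

/-- joint derivative of a polynomial in two variables, chain rule included -/
lemma hasFDerivAt_ev (p : NP 2) (g1 g2 : E → ℝ) (g1' g2' : E →L[ℝ] ℝ) (x : E)
    (h1 : HasFDerivAt g1 g1' x) (h2 : HasFDerivAt g2 g2' x) :
    HasFDerivAt (fun z => ev p (g1 z) (g2 z))
      ((ev (der 2 0 p) (g1 x) (g2 x)) • g1' + (ev (der 2 1 p) (g1 x) (g2 x)) • g2') x := by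
  refine hasFDerivAt_evalL (α := NP 1) (der 2 0) (der 1 0) (fun a y => ev1 a y) rfl ?_
    g1 g2 g1' g2' x h1 ?_ p
  · intro c cs x y
    change evalL _ _ (addL (add 1) cs (zero 1 :: derL (add 1) (zero 1) cs)) = _
    rw [evalL_addL (add 1) (fun a => ev1 a y) x (fun a b => ev1_add a b y)]
    have hz : ev1 (zero 1) y = 0 := eval_zero 1 _
    simp only [evalL, hz]
    change _ = evalL (fun a => ev1 a y) x cs + x * evalL (fun a => ev1 a y) x
      (derL (add 1) (zero 1) cs)
    ring
  · intro a
    exact (hasDerivAt_ev1 a (g2 x)).comp_hasFDerivAt x h2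

end fderiv

lemma continuous_ev1 (p : NP 1) : Continuous (ev1 p) :=
  continuous_iff_continuousAt.2 fun u => (hasDerivAt_ev1 p u).continuousAt

lemma continuous_ev (p : NP 2) : Continuous (fun z : ℝ × ℝ => ev p z.1 z.2) := by
  rw [continuous_iff_continuousAt]
  intro z
  exact (hasFDerivAt_ev p Prod.fst Prod.snd _ _ z hasFDerivAt_fst hasFDerivAt_snd).continuousAt

/-! ### positivity on the triangle and the interval -/

/-- `s t` -/
def triU : NP 2 := ([[], [0, 1]] : List (List ℤ))
/-- `s (1 - t)` -/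
def triV : NP 2 := ([[], [1, -1]] : List (List ℤ))

lemma ev_triU (s t : ℝ) : ev triU s t = s * t := by
  change evalL (fun c : NP 1 => eval 1 c [t]) s [[], [0, 1]] = _
  simp only [evalL, eval, List.headD_cons]
  push_cast
  ring

lemma ev_triV (s t : ℝ) : ev triV s t = s * (1 - t) := by
  change evalL (fun c : NP 1 => eval 1 c [t]) s [[], [1, -1]] = _
  simp only [evalL, eval, List.headD_cons]
  push_cast
  ring

/-- checker for the triangle `u, v ≥ 0`, `u + v ≤ 1` -/
def chkTri (T : Tree) (p : NP 2) : Bool := chk 2 T (subst 2 2 p [triU, triV])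

theorem chkTri_sound (T : Tree) (p : NP 2) (h : chkTri T p = true) (u v : ℝ) (hu : 0 ≤ u)
    (hv : 0 ≤ v) (huv : u + v ≤ 1) : 0 ≤ ev p u v := by
  have key : ∀ s t : ℝ, 0 ≤ s → s ≤ 1 → 0 ≤ t → t ≤ 1 → 0 ≤ ev p (s * t) (s * (1 - t)) := by
    intro s t hs0 hs1 ht0 ht1
    have h1 := chk_sound 2 T _ h [s, t] (by
      intro x hx
      simp only [List.mem_cons, List.not_mem_nil, or_false] at hx
      rcases hx with rfl | rfl
      · exact ⟨hs0, hs1⟩
      · exact ⟨ht0, ht1⟩)
    change 0 ≤ ev (subst 2 2 p [triU, triV]) s t at h1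
    rwa [ev_subst, ev_triU, ev_triV] at h1
  rcases eq_or_lt_of_le (add_nonneg hu hv) with h0 | h0
  · have h1 : u = 0 := by linarith
    have h2 : v = 0 := by linarith
    have h3 := key 0 0 le_rfl zero_le_one le_rfl zero_le_one
    simpa [h1, h2] using h3
  · have h1 := key (u + v) (u / (u + v)) h0.le huv (by positivity) (by
      rw [div_le_one h0]; linarith)
    have e1 : (u + v) * (u / (u + v)) = u := by field_simp
    have e2 : (u + v) * (1 - u / (u + v)) = v := by field_simp; ring
    rwa [e1, e2] at h1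

theorem chk1_sound (T : Tree) (p : NP 1) (h : chk 1 T p = true) (t : ℝ) (h0 : 0 ≤ t)
    (h1 : t ≤ 1) : 0 ≤ ev1 p t :=
  chk_sound 1 T _ h [t] (by
      intro x hx
      simp only [List.mem_cons, List.not_mem_nil, or_false] at hx
      rcases hx with rfl
      exact ⟨h0, h1⟩)

theorem chk2_sound (T : Tree) (p : NP 2) (h : chk 2 T p = true) (s t : ℝ) (h0 : 0 ≤ s)
    (h1 : s ≤ 1) (h2 : 0 ≤ t) (h3 : t ≤ 1) : 0 ≤ ev p s t :=
  chk_sound 2 T _ h [s, t] (by
      intro x hx
      simp only [List.mem_cons, List.not_mem_nil, or_false] at hx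
      rcases hx with rfl | rfl
      · exact ⟨h0, h1⟩
      · exact ⟨h2, h3⟩)

end Pool.Agent.Lib.MP_eb7570_an.Pos
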