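import Mathlib
import Pool.Agent.Lib.MP_eb7570_an.Pos.Alg

/-!
# Polynomial models of expressions, computed by the kernel

A model `m : Md` of a real number `G` at the point `xs` of the unit box: the real number
`M ^ m.lvl * G` is within `m.er` of the value of the integer polynomial `m.P`. Expressions
`Ex` are evaluated to models (`Ex.model`) and to reals (`Ex.real`); `Ex.sound` relates the two.
-/

set_option autoImplicit false

namespace Pool.Agent.Lib.MP_eb7570_an.Pos

/-- `ℓ¹` norm of the coefficients -/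
def nrmL {α : Type} (f : α → ℕ) : List α → ℕ
  | [] => 0
  | a :: p => f a + nrmL f p

def nrm : (n : ℕ) → NP n → ℕ
  | 0 => Int.natAbs
  | n + 1 => nrmL (nrm n)

lemma abs_evalL_le {α : Type} (f : α → ℝ) (g : α → ℕ) (x : ℝ) (hx : 0 ≤ x) (hx1 : x ≤ 1)
    (h : ∀ a, |f a| ≤ g a) (p : List α) : |evalL f x p| ≤ nrmL g p := by
  induction p with
  | nil => simp [evalL, nrmL]
  | cons a p ih =>
    simp only [evalL, nrmL]
    push_cast
    have h1 : |x * evalL f x p| ≤ nrmL g p := by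
      rw [abs_mul, abs_of_nonneg hx]
      calc x * |evalL f x p| ≤ 1 * |evalL f x p| :=
            mul_le_mul_of_nonneg_right hx1 (abs_nonneg _)
        _ ≤ _ := by rw [one_mul]; exact ih
    exact (abs_add_le _ _).trans (add_le_add (h a) h1)

lemma abs_eval_le (n : ℕ) (p : NP n) (xs : List ℝ) (hx : inBox xs) :
    |eval n p xs| ≤ nrm n p := by
  induction n generalizing xs with
  | zero =>
    change |((p : ℤ) : ℝ)| ≤ ((Int.natAbs p : ℕ) : ℝ)
    rw [Nat.cast_natAbs]
    push_cast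
    exact le_refl _
  | succ n ih =>
    exact abs_evalL_le _ _ _ hx.head.1 hx.head.2 (fun a => ih a xs.tail hx.tail) p

/-- a model -/
structure Md (n : ℕ) where
  lvl : ℕ
  P : NP n
  er : ℕ

/-- `m` is a model of `G` at `xs` -/
def Md.Ok {n : ℕ} (M : ℕ) (m : Md n) (xs : List ℝ) (G : ℝ) : Prop :=
  |(M : ℝ) ^ m.lvl * G - eval n m.P xs| ≤ m.er

/-- expressions -/
inductive Ex
  | v (i : ℕ) : Ex
  | c (k : ℤ) : Ex
  | add (a b : Ex) : Ex
  | sub (a b : Ex) : Ex
  | mul (a b : Ex) : Ex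

/-- real value; `c k` is `k / M` -/
noncomputable def Ex.real (M : ℕ) (env : List ℝ) : Ex → ℝ
  | .v i => env.getD i 0
  | .c k => k / M
  | .add a b => a.real M env + b.real M env
  | .sub a b => a.real M env - b.real M env
  | .mul a b => a.real M env * b.real M env

variable {n : ℕ}

/-- raise the level -/
def Md.lift (M k : ℕ) (m : Md n) : Md n :=
  Nat.rec m (fun _ _ => ⟨m.lvl + k, smul (Int.ofNat (Nat.pow M k)) n m.P, Nat.mul (Nat.pow M k) m.er⟩) k

def Md.addM (M : ℕ) (a b : Md n) : Md n :=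
  let a' := a.lift M (b.lvl - a.lvl)
  let b' := b.lift M (a.lvl - b.lvl)
  ⟨a'.lvl, Pos.add n a'.P b'.P, a'.er + b'.er⟩

def Md.subM (M : ℕ) (a b : Md n) : Md n :=
  let a' := a.lift M (b.lvl - a.lvl)
  let b' := b.lift M (a.lvl - b.lvl)
  ⟨a'.lvl, Pos.sub n a'.P b'.P, a'.er + b'.er⟩

def Md.mulM (a b : Md n) : Md n :=
  ⟨a.lvl + b.lvl, Pos.mul n a.P b.P, a.er * nrm n b.P + b.er * nrm n a.P + a.er * b.er⟩

/-- evaluation of an expression to a model -/
def Ex.model (M : ℕ) (env : List (Md n)) : Ex → Md n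
  | .v i => env.getD i ⟨0, zero n, 0⟩
  | .c k => ⟨1, const k n, 0⟩
  | .add a b => Md.addM M (a.model M env) (b.model M env)
  | .sub a b => Md.subM M (a.model M env) (b.model M env)
  | .mul a b => Md.mulM (a.model M env) (b.model M env)

lemma Md.lift_lvl (M k : ℕ) (m : Md n) : (m.lift M k).lvl = m.lvl + k := by
  cases k with
  | zero => rfl
  | succ k => rfl

lemma Md.lift_ok {M k : ℕ} {m : Md n} {xs : List ℝ} {G : ℝ} (h : m.Ok M xs G) :
    (m.lift M k).Ok M xs G := by
  cases k with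
  | zero => exact h
  | succ k =>
    unfold Md.Ok at h ⊢
    change |(M : ℝ) ^ (m.lvl + (k + 1)) * G -
      eval n (smul (Int.ofNat (Nat.pow M (k + 1))) n m.P) xs| ≤
      ((Nat.mul (Nat.pow M (k + 1)) m.er : ℕ) : ℝ)
    rw [eval_smul]
    have e1 : ((Int.ofNat (Nat.pow M (k + 1)) : ℤ) : ℝ) = (M : ℝ) ^ (k + 1) := by
      have : Int.ofNat (Nat.pow M (k + 1)) = ((M ^ (k + 1) : ℕ) : ℤ) := rfl
      rw [this]
      push_cast
      rfl
    have e2 : ((Nat.mul (Nat.pow M (k + 1)) m.er : ℕ) : ℝ) = (M : ℝ) ^ (k + 1) * m.er := by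
      have : Nat.mul (Nat.pow M (k + 1)) m.er = M ^ (k + 1) * m.er := rfl
      rw [this]
      push_cast
      rfl
    rw [e1, e2]
    have e3 : (M : ℝ) ^ (m.lvl + (k + 1)) * G - (M : ℝ) ^ (k + 1) * eval n m.P xs =
        (M : ℝ) ^ (k + 1) * ((M : ℝ) ^ m.lvl * G - eval n m.P xs) := by
      rw [pow_add]
      ring
    rw [e3, abs_mul, abs_of_nonneg (by positivity : (0 : ℝ) ≤ (M : ℝ) ^ (k + 1))]
    exact mul_le_mul_of_nonneg_left h (by positivity)

lemma Md.addM_ok {M : ℕ} {a b : Md n} {xs : List ℝ} {G H : ℝ} (ha : a.Ok M xs G)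
    (hb : b.Ok M xs H) : (Md.addM M a b).Ok M xs (G + H) := by
  have h1 := Md.lift_ok (k := b.lvl - a.lvl) ha
  have h2 := Md.lift_ok (k := a.lvl - b.lvl) hb
  have hl : (b.lift M (a.lvl - b.lvl)).lvl = (a.lift M (b.lvl - a.lvl)).lvl := by
    rw [Md.lift_lvl, Md.lift_lvl]; omega
  unfold Md.Ok at h1 h2 ⊢
  rw [hl] at h2
  simp only [Md.addM, eval_add]
  push_cast
  rw [abs_le] at h1 h2 ⊢
  constructor <;> linarith [h1.1, h1.2, h2.1, h2.2,
    mul_add ((M : ℝ) ^ (a.lift M (b.lvl - a.lvl)).lvl) G H]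

lemma Md.subM_ok {M : ℕ} {a b : Md n} {xs : List ℝ} {G H : ℝ} (ha : a.Ok M xs G)
    (hb : b.Ok M xs H) : (Md.subM M a b).Ok M xs (G - H) := by
  have h1 := Md.lift_ok (k := b.lvl - a.lvl) ha
  have h2 := Md.lift_ok (k := a.lvl - b.lvl) hb
  have hl : (b.lift M (a.lvl - b.lvl)).lvl = (a.lift M (b.lvl - a.lvl)).lvl := by
    rw [Md.lift_lvl, Md.lift_lvl]; omega
  unfold Md.Ok at h1 h2 ⊢
  rw [hl] at h2
  simp only [Md.subM, eval_sub]
  push_cast
  rw [abs_le] at h1 h2 ⊢
  constructor <;> linarith [h1.1, h1.2, h2.1, h2.2,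
    mul_sub ((M : ℝ) ^ (a.lift M (b.lvl - a.lvl)).lvl) G H]

lemma Md.mulM_ok {M : ℕ} {a b : Md n} {xs : List ℝ} {G H : ℝ} (hx : inBox xs)
    (ha : a.Ok M xs G) (hb : b.Ok M xs H) : (Md.mulM a b).Ok M xs (G * H) := by
  unfold Md.Ok at ha hb ⊢
  simp only [Md.mulM, eval_mul]
  push_cast
  set p := eval n a.P xs with hp
  set q := eval n b.P xs with hq
  have hp1 : |p| ≤ nrm n a.P := abs_eval_le n a.P xs hx
  have hq1 : |q| ≤ nrm n b.P := abs_eval_le n b.P xs hx
  set g := (M : ℝ) ^ a.lvl * G with hg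
  set k := (M : ℝ) ^ b.lvl * H with hk
  have e1 : (M : ℝ) ^ (a.lvl + b.lvl) * (G * H) - p * q =
      (g - p) * q + (k - q) * p + (g - p) * (k - q) := by
    rw [pow_add]
    rw [hg, hk]
    ring
  rw [e1]
  have t1 : |(g - p) * q| ≤ a.er * nrm n b.P := by
    rw [abs_mul]
    exact mul_le_mul ha hq1 (abs_nonneg _) (by positivity)
  have t2 : |(k - q) * p| ≤ b.er * nrm n a.P := by
    rw [abs_mul]
    exact mul_le_mul hb hp1 (abs_nonneg _) (by positivity)
  have t3 : |(g - p) * (k - q)| ≤ a.er * b.er := by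
    rw [abs_mul]
    exact mul_le_mul ha hb (abs_nonneg _) (by positivity)
  exact (abs_add_le _ _).trans (add_le_add ((abs_add_le _ _).trans (add_le_add t1 t2)) t3)

/-- the models of the environment are correct -/
def EnvOk (M : ℕ) (menv : List (Md n)) (renv : List ℝ) (xs : List ℝ) : Prop :=
  List.Forall₂ (fun m r => Md.Ok M m xs r) menv renv

theorem Ex.sound {M : ℕ} (hM : 0 < M) {menv : List (Md n)} {renv : List ℝ} {xs : List ℝ}
    (hx : inBox xs) (h : EnvOk M menv renv xs) (e : Ex) :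
    (e.model M menv).Ok M xs (e.real M renv) := by
  induction e with
  | v i =>
    simp only [Ex.model, Ex.real]
    unfold EnvOk at h
    induction h generalizing i with
    | nil => simp [Md.Ok]
    | cons hd _ ih =>
      cases i with
      | zero => exact hd
      | succ i => simpa using ih i
  | c k =>
    simp only [Ex.model, Ex.real, Md.Ok, eval_const, pow_one]
    have hM' : (M : ℝ) ≠ 0 := by positivity
    rw [mul_div_cancel₀ _ hM']
    simp
  | add a b iha ihb => exact Md.addM_ok iha ihb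
  | sub a b iha ihb => exact Md.subM_ok iha ihb
  | mul a b iha ihb => exact Md.mulM_ok hx iha ihb

/-- lower bound test: the polynomial minus the error is nonnegative on the box -/
def Md.nn (T : Tree) (m : Md n) : Bool := chk n T (Pos.sub n m.P (const (Int.ofNat m.er) n))

theorem Md.nn_sound {M : ℕ} (hM : 0 < M) {T : Tree} {m : Md n} {xs : List ℝ} {G : ℝ}
    (hx : inBox xs) (h : m.Ok M xs G) (hn : m.nn T = true) : 0 ≤ G := by
  have h1 := chk_sound n T _ hn xs hx
  rw [eval_sub, eval_const] at h1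
  unfold Md.Ok at h
  rw [abs_le] at h
  have e : ((Int.ofNat m.er : ℤ) : ℝ) = m.er := by simp
  rw [e] at h1
  have h2 : 0 ≤ (M : ℝ) ^ m.lvl * G := by linarith [h.1]
  have h3 : (0 : ℝ) < (M : ℝ) ^ m.lvl := by positivity
  exact nonneg_of_mul_nonneg_right h2 h3

/-- **Positivity of an expression.** -/
theorem Ex.nonneg {M : ℕ} (hM : 0 < M) {T : Tree} {menv : List (Md n)} {renv : List ℝ}
    {xs : List ℝ} (hx : inBox xs) (h : EnvOk M menv renv xs) (e : Ex)
    (hn : (e.model M menv).nn T = true) : 0 ≤ e.real M renv :=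
  Md.nn_sound hM hx (Ex.sound hM hx h e) hn

end Pool.Agent.Lib.MP_eb7570_an.Pos
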